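import Mathlib
import Pool.Agent.K3h42.IE.Main
import Pool.Agent.K3h42.IE.Exist

/-!
# MP_286868_an, Q1: isometric extensions over an intermediate system

Let `S = (A, μ, α)` be a tracial W*-dynamical system in its GNS representation on `H` (the structure
`TracialSystem H` of `Pool/Agent/K3h42/IE/Defs.lean`) and let `F ⊆ G ⊆ A` be subsystems.  If `S` is an
isometric extension of `F`, i.e. the `U`-`μ̄`-modules for the basic construction `⟨A, e_F⟩` span
`H ⊖ H_F`, then `S` is an isometric extension of `G`.  No countability, separability, factor or
finite-index assumption is made.  The canonical trace of the basic construction enters through the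
predicate `TracialSystem.IsCanonicalTrace`; the theorem uses the hypothesis for some canonical trace of
`⟨A, e_F⟩`, and proves that a canonical trace of `⟨A, e_G⟩` exists and that the conclusion holds for
every canonical trace of `⟨A, e_G⟩`.

Sketch of the proof.  Let `V` be a `U`-`μ̄`-module for `F`.  Write `V` as the orthogonal sum of the
ranges of partial isometries `w` of the commutant of `J F J` whose initial projections are
`p_w e_F` with `p_w ∈ F`, so that `μ̄_F(P_V) = Σ μ(p_w)`.  The closed `G`-module generated by a single
vector `w Ω` has a projection of `μ̄_G`-trace at most `μ̄_G(p_w e_G) = μ(p_w)` (polar decomposition in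
the commutant of `J G J`), so the closed `G`-module `W` generated by `V` has
`μ̄_G(P_W) ≤ μ̄_F(P_V) < ∞`, and it is `U`-invariant.  The closure of `(1 - e_G) W` is a `U`-invariant
right `G`-module orthogonal to `H_G`, of `μ̄_G`-trace at most `μ̄_G(P_W)` by comparison of left and
right supports.  A vector of `H ⊖ H_G` orthogonal to all `U`-`μ̄`-modules for `G` is therefore
orthogonal to all `U`-`μ̄`-modules for `F`, so lies in `H_F ⊆ H_G` and vanishes.
-/

set_option autoImplicit false
open scoped InnerProductSpace ENNReal NNReal

namespace Pool.Agent.Results.MP_286868_an.IntermediateIsometric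

open Pool.Agent.K3h42.IE

universe u

/-- **Full positive answer to Q1.** If `F ⊆ G ⊆ A` are subsystems of `S` and `S` is an isometric
extension of `F`, then `S` is an isometric extension of `G`; moreover the equality
`𝓔_{A/G} = H ⊖ H_G` holds for every canonical trace of `⟨A, e_G⟩`. -/
theorem result {H : Type u} [NormedAddCommGroup H] [InnerProductSpace ℂ H] [CompleteSpace H]
    (S : TracialSystem H) (F G : VonNeumannAlgebra H) (hF : S.IsSubsystem F) (hG : S.IsSubsystem G)
    (hFG : F ≤ G) (h : S.IsIsometricExtension F) :
    S.IsIsometricExtension G ∧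
      ∀ τ : (H →L[ℂ] H) → ℝ≥0∞, S.IsCanonicalTrace G τ → S.relSpan G τ = (S.sub G)ᗮ := by
  obtain ⟨τF, hτF, hspan⟩ := h
  have key : ∀ τ : (H →L[ℂ] H) → ℝ≥0∞, S.IsCanonicalTrace G τ →
      S.relSpan G τ = (S.sub G)ᗮ := fun τ hτ =>
    TracialSystem.main_of_traces hF hG hFG hτF hτ hspan
  obtain ⟨τG, hτG⟩ := TracialSystem.exists_canonical (S := S) G hG.1
  exact ⟨⟨τG, hτG, key τG hτG⟩, key⟩

end Pool.Agent.Results.MP_286868_an.IntermediateIsometric
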